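import Mathlib
import Pool.Agent.V11115.Rooted

/-!
# `Γ_b - α_bn` is unbounded on trees

The caterpillar `Cat t`: a path with `4 t + 4` vertices in positions `0, ..., 4 t + 3`, and a leaf
at every position congruent to `0` or `3` modulo `4`. Then `Γ_b ≥ 5 t + 5` and `α_bn ≤ 4 t + 6`.
-/

set_option autoImplicit false

namespace Pool.Agent.Results.MP_4edf50_co.UnboundedOnTrees

open Finset

section Defs

variable {V : Type} [Fintype V] (G : SimpleGraph V)

/-- the eccentricity of `v` -/
noncomputable def ecc (v : V) : ℕ := univ.sup (fun u => G.dist v u)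

/-- `f` is a broadcast: `f v ≤ e(v)` for all `v` -/
def IsBroadcast (f : V → ℕ) : Prop := ∀ v, f v ≤ ecc G v

/-- `u` hears `f` from `v` -/
def Hears (f : V → ℕ) (u v : V) : Prop := 0 < f v ∧ G.dist u v ≤ f v

/-- `f` is dominating: every vertex hears `f` from some vertex -/
def Dominating (f : V → ℕ) : Prop := ∀ u, ∃ v, Hears G f u v

/-- `f` is a minimal dominating broadcast: no broadcast `g < f` is dominating -/
def IsMinimalDominating (f : V → ℕ) : Prop :=
  IsBroadcast G f ∧ Dominating G f ∧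
    ∀ g : V → ℕ, IsBroadcast G g → (∀ v, g v ≤ f v) → g ≠ f → ¬ Dominating G g

/-- `f` is boundary independent: a vertex hearing `f` from two vertices `u ≠ v` is at distance
exactly `f u` from `u` and at distance exactly `f v` from `v` -/
def IsBnIndependent (f : V → ℕ) : Prop :=
  IsBroadcast G f ∧ ∀ u v, u ≠ v → ∀ x, Hears G f x u → Hears G f x v →
    G.dist x u = f u ∧ G.dist x v = f v

/-- the upper broadcast domination number -/
noncomputable def GammaB : ℕ := sSup {w | ∃ f : V → ℕ, IsMinimalDominating G f ∧ ∑ v, f v = w}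

/-- the boundary independence number -/
noncomputable def alphaBn : ℕ := sSup {w | ∃ f : V → ℕ, IsBnIndependent G f ∧ ∑ v, f v = w}

theorem le_gammaB {f : V → ℕ} (hf : IsMinimalDominating G f) : ∑ v, f v ≤ GammaB G := by
  refine le_csSup ⟨∑ v, ecc G v, ?_⟩ ⟨f, hf, rfl⟩
  rintro w ⟨g, hg, rfl⟩
  exact Finset.sum_le_sum fun v _ => hg.1 v

theorem alphaBn_le {k : ℕ} (h : ∀ f : V → ℕ, IsBnIndependent G f → ∑ v, f v ≤ k) :
    alphaBn G ≤ k := by
  refine csSup_le ⟨0, fun _ => 0, ⟨fun _ => Nat.zero_le _, ?_⟩, by simp⟩ ?_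
  · intro u v _ x hu _
    exact absurd hu.1 (lt_irrefl _)
  · rintro w ⟨g, hg, rfl⟩
    exact h g hg

end Defs

/-! ### distances -/

theorem dist_eq_of {V : Type} {G : SimpleGraph V} (D : V → V → ℕ) (h0 : ∀ x, D x x = 0)
    (h1 : ∀ x y z, G.Adj x y → D x z ≤ D y z + 1)
    (h2 : ∀ x y, x ≠ y → ∃ z, G.Adj x z ∧ D z y + 1 = D x y) (x y : V) : G.dist x y = D x y := by
  have hw : ∀ x y : V, ∀ p : G.Walk x y, D x y ≤ p.length := by
    intro x y p
    induction p with
    | nil => rw [h0]; exact Nat.zero_le _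
    | cons hadj p ih =>
      rw [SimpleGraph.Walk.length_cons]
      exact (h1 _ _ _ hadj).trans (Nat.add_le_add_right ih 1)
  have he : ∀ n, ∀ x y : V, D x y = n → ∃ p : G.Walk x y, p.length = n := by
    intro n
    induction n with
    | zero =>
      intro x y h
      by_cases hxy : x = y
      · subst hxy; exact ⟨SimpleGraph.Walk.nil, rfl⟩
      · obtain ⟨z, _, hz⟩ := h2 x y hxy
        omega
    | succ n ih =>
      intro x y h
      by_cases hxy : x = y
      · subst hxy; rw [h0] at h; omega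
      · obtain ⟨z, hz1, hz2⟩ := h2 x y hxy
        obtain ⟨p, hp⟩ := ih z y (by omega)
        exact ⟨SimpleGraph.Walk.cons hz1 p, by rw [SimpleGraph.Walk.length_cons, hp]⟩
  obtain ⟨p, hp⟩ := he _ x y rfl
  apply le_antisymm
  · rw [← hp]; exact SimpleGraph.dist_le p
  · obtain ⟨q, hq⟩ := (SimpleGraph.Walk.reachable p).exists_walk_length_eq_dist
    rw [← hq]; exact hw x y q

/-! ### the caterpillar -/

/-- the vertices: `inl j` is the vertex of the path in position `j`, `inr l` is the `l`-th leaf -/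
abbrev V (t : ℕ) : Type := Fin (4 * t + 4) ⊕ Fin (2 * t + 2)

/-- the position of a vertex -/
def pos {t : ℕ} : V t → ℕ
  | Sum.inl j => j
  | Sum.inr l => 2 * l + l % 2

/-- `1` for the leaves, `0` for the vertices of the path -/
def ht {t : ℕ} : V t → ℕ
  | Sum.inl _ => 0
  | Sum.inr _ => 1

theorem pos_inl {t : ℕ} (j : Fin (4 * t + 4)) : pos (Sum.inl j : V t) = j := rfl
theorem pos_inr {t : ℕ} (l : Fin (2 * t + 2)) : pos (Sum.inr l : V t) = 2 * l + l % 2 := rfl
theorem ht_inl {t : ℕ} (j : Fin (4 * t + 4)) : ht (Sum.inl j : V t) = 0 := rfl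
theorem ht_inr {t : ℕ} (l : Fin (2 * t + 2)) : ht (Sum.inr l : V t) = 1 := rfl

/-- the distance function -/
def D {t : ℕ} (x y : V t) : ℕ :=
  if x = y then 0 else ((pos x - pos y) + (pos y - pos x)) + ht x + ht y

theorem D_self {t : ℕ} (x : V t) : D x x = 0 := if_pos rfl

theorem D_comm {t : ℕ} (x y : V t) : D x y = D y x := by
  unfold D
  by_cases h : x = y
  · rw [if_pos h, if_pos h.symm]
  · rw [if_neg h, if_neg (Ne.symm h)]; omega

/-- the caterpillar -/
def Cat (t : ℕ) : SimpleGraph (V t) where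
  Adj x y := D x y = 1
  symm := ⟨fun x y h => by rw [D_comm]; exact h⟩
  loopless := ⟨fun x h => by rw [D_self] at h; omega⟩

theorem pos_inj {t : ℕ} {x y : V t} (h : pos x = pos y) (h' : ht x = ht y) : x = y := by
  rcases x with ⟨j, hj⟩ | ⟨l, hl⟩ <;> rcases y with ⟨j', hj'⟩ | ⟨l', hl'⟩ <;>
    simp only [pos, ht] at h h' <;> first | omega | skip
  · subst h; rfl
  · have : l = l' := by omega
    subst this; rfl

theorem D_of_ne {t : ℕ} {x y : V t} (h : x ≠ y) :
    D x y = ((pos x - pos y) + (pos y - pos x)) + ht x + ht y := if_neg h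

theorem D_le {t : ℕ} (x y : V t) : D x y ≤ ((pos x - pos y) + (pos y - pos x)) + ht x + ht y := by
  unfold D; split_ifs <;> omega

theorem ht_le {t : ℕ} (x : V t) : ht x ≤ 1 := by cases x <;> simp [ht]

theorem pos_lt {t : ℕ} (x : V t) : pos x < 4 * t + 4 := by
  rcases x with ⟨j, hj⟩ | ⟨l, hl⟩ <;> simp only [pos] <;> omega

theorem lip {t : ℕ} (x y z : V t) (h : (Cat t).Adj x y) : D x z ≤ D y z + 1 := by
  change D x y = 1 at h
  have hxy : x ≠ y := by rintro rfl; rw [D_self] at h; omega
  by_cases hyz : y = z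
  · subst hyz; rw [D_self]; omega
  · have h2 := D_le x z
    rw [D_of_ne hxy] at h
    rw [D_of_ne hyz]
    have := ht_le x
    have := ht_le y
    by_cases hhy : ht y = 1
    · have h3 : ht x = 0 := by omega
      have h4 : pos x = pos y := by omega
      omega
    · by_cases hhx : ht x = 1
      · have h4 : pos x = pos y := by omega
        omega
      · omega

theorem step {t : ℕ} (x y : V t) (h : x ≠ y) : ∃ z, (Cat t).Adj x z ∧ D z y + 1 = D x y := by
  have hx := pos_lt x
  have hy := pos_lt y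
  by_cases hhx : ht x = 1
  · -- `x` is a leaf
    have hne : x ≠ Sum.inl ⟨pos x, hx⟩ := by
      intro h'
      have := congrArg ht h'
      rw [ht_inl, hhx] at this
      omega
    have hD : D x (Sum.inl ⟨pos x, hx⟩) = 1 := by
      rw [D_of_ne hne, pos_inl, ht_inl, hhx]
      simp
    refine ⟨Sum.inl ⟨pos x, hx⟩, hD, ?_⟩
    by_cases hz : (Sum.inl ⟨pos x, hx⟩ : V t) = y
    · rw [← hz, D_self, hD]
    · rw [D_of_ne hz, D_of_ne h, pos_inl, ht_inl, hhx]
      simp only
      omega
  · have hhx0 : ht x = 0 := by have := ht_le x; omega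
    by_cases hp : pos x = pos y
    · -- `y` is the leaf at `x`
      have hhy : ht y = 1 := by
        by_contra hhy
        exact h (pos_inj hp (by have := ht_le y; omega))
      refine ⟨y, ?_, ?_⟩
      · change D x y = 1
        rw [D_of_ne h]; omega
      · rw [D_self, D_of_ne h]; omega
    · rcases Nat.lt_or_gt_of_ne hp with hlt | hgt
      · have hne : x ≠ Sum.inl ⟨pos x + 1, by omega⟩ := by
          intro h'
          have := congrArg pos h'
          rw [pos_inl] at this
          simp only at this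
          omega
        refine ⟨Sum.inl ⟨pos x + 1, by omega⟩, ?_, ?_⟩
        · change D x _ = 1
          rw [D_of_ne hne, pos_inl, ht_inl, hhx0]
          simp only
          omega
        · by_cases hz : (Sum.inl ⟨pos x + 1, by omega⟩ : V t) = y
          · have h1 := congrArg pos hz
            have h2 := congrArg ht hz
            rw [pos_inl] at h1
            rw [ht_inl] at h2
            simp only at h1
            rw [hz, D_self, D_of_ne h]; omega
          · rw [D_of_ne hz, D_of_ne h, pos_inl, ht_inl, hhx0]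
            simp only
            omega
      · have hne : x ≠ Sum.inl ⟨pos x - 1, by omega⟩ := by
          intro h'
          have := congrArg pos h'
          rw [pos_inl] at this
          simp only at this
          omega
        refine ⟨Sum.inl ⟨pos x - 1, by omega⟩, ?_, ?_⟩
        · change D x _ = 1
          rw [D_of_ne hne, pos_inl, ht_inl, hhx0]
          simp only
          omega
        · by_cases hz : (Sum.inl ⟨pos x - 1, by omega⟩ : V t) = y
          · have h1 := congrArg pos hz
            have h2 := congrArg ht hz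
            rw [pos_inl] at h1
            rw [ht_inl] at h2
            simp only at h1
            rw [hz, D_self, D_of_ne h]; omega
          · rw [D_of_ne hz, D_of_ne h, pos_inl, ht_inl, hhx0]
            simp only
            omega

theorem dist_eq {t : ℕ} (x y : V t) : (Cat t).dist x y = D x y :=
  dist_eq_of D D_self lip step x y

/-- the parent function -/
def par {t : ℕ} : V t → V t
  | Sum.inl j => Sum.inl ⟨j - 1, by have := j.2; omega⟩
  | Sum.inr l => Sum.inl ⟨2 * l + l % 2, by have := l.2; omega⟩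

theorem par_inl {t : ℕ} (j : Fin (4 * t + 4)) :
    par (Sum.inl j : V t) = Sum.inl ⟨j - 1, by have := j.2; omega⟩ := rfl
theorem par_inr {t : ℕ} (l : Fin (2 * t + 2)) :
    par (Sum.inr l : V t) = Sum.inl ⟨2 * l + l % 2, by have := l.2; omega⟩ := rfl

theorem isTree (t : ℕ) : (Cat t).IsTree := by
  refine V11115.Rooting.isTree (G := Cat t)
    { root := Sum.inl ⟨0, by omega⟩
      par := par
      dep := fun x => pos x + ht x
      par_dep := ?_
      adj_iff := ?_ }
  · rintro (⟨j, hj⟩ | ⟨l, hl⟩) h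
    · have : j ≠ 0 := by rintro rfl; exact h rfl
      simp only [par_inl, pos_inl, ht_inl]; omega
    · simp only [par_inr, pos_inl, pos_inr, ht_inl, ht_inr]; omega
  · rintro (⟨j, hj⟩ | ⟨l, hl⟩) (⟨j', hj'⟩ | ⟨l', hl'⟩)
    · change D _ _ = 1 ↔ _
      simp only [D, par_inl, pos_inl, ht_inl, Sum.inl.injEq, Fin.mk.injEq, ne_eq]
      split_ifs with h
      · simp only [false_iff]
        omega
      · omega
    · change D _ _ = 1 ↔ _
      simp only [D, par_inl, par_inr, pos_inl, pos_inr, ht_inl, ht_inr, Sum.inl.injEq,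
        Fin.mk.injEq, ne_eq, reduceCtorEq, if_false,
        not_false_eq_true, true_and, and_false, false_or]
      omega
    · change D _ _ = 1 ↔ _
      simp only [D, par_inl, par_inr, pos_inl, pos_inr, ht_inl, ht_inr, Sum.inl.injEq,
        Fin.mk.injEq, ne_eq, reduceCtorEq, if_false,
        not_false_eq_true, true_and, and_false, or_false]
      omega
    · change D _ _ = 1 ↔ _
      simp only [D, par_inr, pos_inr, ht_inr, Sum.inr.injEq, Fin.mk.injEq, ne_eq, reduceCtorEq,
        and_false, or_false]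
      split_ifs with h
      · simp
      · simp only [iff_false]
        omega

/-! ### a minimal dominating broadcast of weight `5 t + 5` -/

/-- value `5` at the leaves whose number is `1` or `2` modulo `4` -/
def F {t : ℕ} : V t → ℕ
  | Sum.inl _ => 0
  | Sum.inr l => if (l : ℕ) % 4 = 1 ∨ (l : ℕ) % 4 = 2 then 5 else 0

theorem F_inl {t : ℕ} (j : Fin (4 * t + 4)) : F (Sum.inl j : V t) = 0 := rfl
theorem F_inr {t : ℕ} (l : Fin (2 * t + 2)) :
    F (Sum.inr l : V t) = if (l : ℕ) % 4 = 1 ∨ (l : ℕ) % 4 = 2 then 5 else 0 := rfl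

theorem F_pos {t : ℕ} {v : V t} (h : 0 < F v) :
    F v = 5 ∧ ∃ l : Fin (2 * t + 2), v = Sum.inr l ∧ ((l : ℕ) % 4 = 1 ∨ (l : ℕ) % 4 = 2) := by
  rcases v with j | l
  · rw [F_inl] at h; omega
  · rw [F_inr] at h
    split_ifs at h with hc
    · exact ⟨by rw [F_inr, if_pos hc], l, rfl, hc⟩
    · omega

/-- the private leaf of the centre `l` -/
def priv {t : ℕ} (l : Fin (2 * t + 2)) (h : (l : ℕ) % 4 = 1 ∨ (l : ℕ) % 4 = 2) : Fin (2 * t + 2) :=
  ⟨if (l : ℕ) % 4 = 1 then l - 1 else l + 1, by have := l.2; split_ifs <;> omega⟩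

theorem D_priv {t : ℕ} (l : Fin (2 * t + 2)) (h : (l : ℕ) % 4 = 1 ∨ (l : ℕ) % 4 = 2) :
    D (Sum.inr (priv l h) : V t) (Sum.inr l) = 5 := by
  have h1 : (Sum.inr (priv l h) : V t) ≠ Sum.inr l := by
    intro h'
    have h2 := congrArg Fin.val (Sum.inr_injective h')
    simp only [priv] at h2
    split_ifs at h2 <;> omega
  rw [D_of_ne h1]
  simp only [pos_inr, ht_inr, priv]
  split_ifs <;> omega

theorem D_priv_other {t : ℕ} (l : Fin (2 * t + 2)) (h : (l : ℕ) % 4 = 1 ∨ (l : ℕ) % 4 = 2)
    (l' : Fin (2 * t + 2)) (h' : (l' : ℕ) % 4 = 1 ∨ (l' : ℕ) % 4 = 2) (hne : l' ≠ l) :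
    6 ≤ D (Sum.inr (priv l h) : V t) (Sum.inr l') := by
  have hne' : (l' : ℕ) ≠ l := fun h0 => hne (Fin.ext h0)
  have h1 : (Sum.inr (priv l h) : V t) ≠ Sum.inr l' := by
    intro h'
    have h2 := congrArg Fin.val (Sum.inr_injective h')
    simp only [priv] at h2
    split_ifs at h2 <;> omega
  rw [D_of_ne h1]
  simp only [pos_inr, ht_inr, priv]
  split_ifs <;> omega

theorem le_ecc {t : ℕ} (v u : V t) : D v u ≤ ecc (Cat t) v := by
  rw [← dist_eq]
  exact Finset.le_sup (f := fun u => (Cat t).dist v u) (mem_univ u)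

theorem ecc_le {t : ℕ} (v : V t) : ecc (Cat t) v ≤ 4 * t + 5 := by
  refine Finset.sup_le fun u _ => ?_
  rw [dist_eq]
  have h1 := D_le v u
  have := pos_lt v
  have := pos_lt u
  have := ht_le v
  have := ht_le u
  omega

theorem F_dom (t : ℕ) : Dominating (Cat t) (F : V t → ℕ) := by
  have key : ∀ (b : ℕ) (hb : b < t + 1), ∃ l : Fin (2 * t + 2), F (Sum.inr l : V t) = 5 ∧
      (l : ℕ) / 2 = b := by
    intro b hb
    refine ⟨⟨if b % 2 = 0 then 2 * b + 1 else 2 * b, by split_ifs <;> omega⟩, ?_, ?_⟩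
    · rw [F_inr, if_pos]
      simp only
      split_ifs <;> omega
    · simp only
      split_ifs <;> omega
  intro u
  obtain ⟨l, hl, hlb⟩ := key (pos u / 4) (by have := pos_lt u; omega)
  refine ⟨Sum.inr l, by rw [hl]; norm_num, ?_⟩
  rw [dist_eq, hl]
  have h1 := D_le u (Sum.inr l)
  rw [pos_inr, ht_inr] at h1
  have := ht_le u
  omega

theorem F_min (t : ℕ) : IsMinimalDominating (Cat t) (F : V t → ℕ) := by
  refine ⟨?_, F_dom t, ?_⟩
  · intro v
    by_cases h : 0 < F v
    · obtain ⟨h5, l, rfl, hl⟩ := F_pos h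
      rw [h5, ← D_priv l hl, D_comm]
      exact le_ecc _ _
    · omega
  · intro g _ hgf hne hdom
    obtain ⟨v, hv⟩ : ∃ v, g v < F v := by
      by_contra hcon
      push Not at hcon
      exact hne (funext fun v => le_antisymm (hgf v) (hcon v))
    obtain ⟨h5, l, rfl, hl⟩ := F_pos (v := v) (by omega)
    obtain ⟨w, hw1, hw2⟩ := hdom (Sum.inr (priv l hl))
    rw [dist_eq] at hw2
    have hw3 := hgf w
    obtain ⟨h5', l', rfl, hl'⟩ := F_pos (v := w) (by omega)
    by_cases hll : l' = l
    · subst hll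
      rw [D_priv] at hw2
      omega
    · have := D_priv_other l hl l' hl' hll
      omega

theorem F_sum (t : ℕ) : ∑ v : V t, F v = 5 * (t + 1) := by
  rw [Fintype.sum_sum_type]
  simp only [F_inl, F_inr, Finset.sum_const_zero, zero_add]
  rw [Fin.sum_univ_eq_sum_range (fun l => if l % 4 = 1 ∨ l % 4 = 2 then 5 else 0) (2 * t + 2)]
  induction t with
  | zero => rfl
  | succ t ih =>
    rw [show 2 * (t + 1) + 2 = 2 * t + 2 + 1 + 1 by ring, Finset.sum_range_succ,
      Finset.sum_range_succ, ih]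
    split_ifs <;> omega

theorem gamma_ge (t : ℕ) : 5 * (t + 1) ≤ GammaB (Cat t) := by
  rw [← F_sum t]
  exact le_gammaB _ (F_min t)

/-! ### the upper bound for `α_bn` -/

/-- the edge between the positions `j` and `j + 1` lies in the ball of radius `r` around `v` -/
def CovA {t : ℕ} (r : ℕ) (v : V t) (j : Fin (4 * t + 3)) : Prop :=
  D v (Sum.inl ⟨j, by have := j.2; omega⟩) ≤ r ∧ D v (Sum.inl ⟨j + 1, by have := j.2; omega⟩) ≤ r

/-- the edge at the leaf `l` lies in the ball of radius `r` around `v` -/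
def CovB {t : ℕ} (r : ℕ) (v : V t) (l : Fin (2 * t + 2)) : Prop :=
  D v (Sum.inr l) ≤ r ∧ D v (par (Sum.inr l)) ≤ r

/-- distinct balls have no common edge -/
theorem disj {t : ℕ} {f : V t → ℕ} (hf : IsBnIndependent (Cat t) f) {u v x y : V t} (huv : u ≠ v)
    (hu : 0 < f u) (hv : 0 < f v) (h1 : D u x ≤ f u) (h2 : D u y ≤ f u) (h3 : D v x ≤ f v)
    (h4 : D v y ≤ f v) : D u x = D u y := by
  have e1 := (hf.2 u v huv x ⟨hu, by rw [dist_eq, D_comm]; exact h1⟩
    ⟨hv, by rw [dist_eq, D_comm]; exact h3⟩).1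
  have e2 := (hf.2 u v huv y ⟨hu, by rw [dist_eq, D_comm]; exact h2⟩
    ⟨hv, by rw [dist_eq, D_comm]; exact h4⟩).1
  rw [dist_eq, D_comm] at e1 e2
  omega

theorem ne_A {t : ℕ} (v : V t) (j : ℕ) (hj : j + 1 < 4 * t + 4) :
    D v (Sum.inl ⟨j, by omega⟩) ≠ D v (Sum.inl ⟨j + 1, hj⟩) := by
  unfold D
  split_ifs with h1 h2 h2
  · rw [h1] at h2
    have := congrArg pos h2
    simp only [pos_inl] at this
    omega
  · rw [h1]; simp only [pos_inl, ht_inl]; omega
  · rw [h2]; simp only [pos_inl, ht_inl]; omega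
  · simp only [pos_inl, ht_inl]; omega

theorem ne_B {t : ℕ} (v : V t) (l : Fin (2 * t + 2)) :
    D v (Sum.inr l) ≠ D v (par (Sum.inr l)) := by
  rw [par_inr]
  unfold D
  split_ifs with h1 h2 h2
  · rw [h1] at h2
    have := congrArg ht h2
    rw [ht_inl, ht_inr] at this
    omega
  · rw [h1]; simp only [pos_inl, ht_inl, pos_inr, ht_inr]; omega
  · rw [h2]; simp only [pos_inl, ht_inl, pos_inr, ht_inr]; omega
  · simp only [pos_inl, ht_inl, pos_inr, ht_inr]; omega

/-- a general counting lemma -/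
theorem sum_card_le {α β : Type} [Fintype β] (S : Finset α) (R : α → β → Prop)
    (h : ∀ a ∈ S, ∀ a' ∈ S, a ≠ a' → ∀ b, R a b → ¬ R a' b) :
    ∑ a ∈ S, {b | R a b}.ncard ≤ Fintype.card β := by
  classical
  have h1 : ∀ a, {b | R a b}.ncard = (univ.filter (fun b => R a b)).card := by
    intro a
    rw [← Set.ncard_coe_finset]
    congr 1
    ext b
    simp
  simp only [h1]
  rw [← Finset.card_biUnion]
  · exact Finset.card_le_univ _
  · intro a ha a' ha' hne
    rw [Function.onFun, Finset.disjoint_left]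
    intro b hb hb'
    rw [Finset.mem_filter] at hb hb'
    exact h a ha a' ha' hne b hb.2 hb'.2

theorem card_ge {N : ℕ} (P : Fin N → Prop) (lo hi : ℕ) (h : hi ≤ N)
    (hP : ∀ j : Fin N, lo ≤ j → (j : ℕ) < hi → P j) : hi - lo ≤ {j | P j}.ncard := by
  have h1 : (((Finset.Ico lo hi).attachFin (n := N) (fun m hm => by
      rw [Finset.mem_Ico] at hm; omega) : Finset (Fin N)) : Set (Fin N)) ⊆ {j | P j} := by
    intro j hj
    rw [Finset.mem_coe, Finset.mem_attachFin, Finset.mem_Ico] at hj
    exact hP j hj.1 hj.2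
  have h2 := Set.ncard_le_ncard h1 (Set.toFinite _)
  rwa [Set.ncard_coe_finset, Finset.card_attachFin, Nat.card_Ico] at h2

theorem covA_of {t : ℕ} {r : ℕ} {v : V t} {j : Fin (4 * t + 3)}
    (h1 : (pos v - j) + (j - pos v) + ht v ≤ r) (h2 : (pos v - (j + 1)) + ((j + 1) - pos v) + ht v ≤ r) :
    CovA r v j := by
  constructor
  · have := D_le v (Sum.inl ⟨(j : ℕ), by have := j.2; omega⟩)
    rw [pos_inl, ht_inl] at this
    simp only at this
    omega
  · have := D_le v (Sum.inl ⟨(j : ℕ) + 1, by have := j.2; omega⟩)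
    rw [pos_inl, ht_inl] at this
    simp only at this
    omega

theorem covB_of {t : ℕ} {r : ℕ} {v : V t} {l : Fin (2 * t + 2)}
    (h1 : (pos v - (2 * l + l % 2)) + ((2 * l + l % 2) - pos v) + ht v + 1 ≤ r) :
    CovB r v l := by
  constructor
  · have := D_le v (Sum.inr l)
    rw [pos_inr, ht_inr] at this
    omega
  · have := D_le v (par (Sum.inr l))
    rw [par_inr] at this ⊢
    rw [pos_inl, ht_inl] at this
    simp only at this
    omega

theorem unit_ncard {P : Prop} (h : P) : {_b : Unit | P}.ncard = 1 := by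
  have : {_b : Unit | P} = {()} := by ext; simp [h]
  rw [this, Set.ncard_singleton]

/-- the key inequality -/
theorem key {t : ℕ} (v : V t) (r : ℕ) (hr : 1 ≤ r) (hr' : r ≤ 4 * t + 5) :
    2 * r ≤ {j | CovA r v j}.ncard + 2 * {l | CovB r v l}.ncard +
      3 * {_b : Unit | CovB r v ⟨0, by omega⟩}.ncard +
      3 * {_b : Unit | CovB r v ⟨2 * t + 1, by omega⟩}.ncard := by
  have hp := pos_lt v
  have hh := ht_le v
  obtain ⟨R, hR⟩ : ∃ R, R + ht v = r := ⟨r - ht v, by omega⟩
  by_cases hl : R ≤ pos v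
  · by_cases hrr : pos v + R ≤ 4 * t + 3
    · have hA := card_ge (fun j => CovA r v j) (pos v - R) (pos v + R) (by omega)
        (fun j h1 h2 => covA_of (by omega) (by omega))
      have hB : ht v ≤ {l | CovB r v l}.ncard := by
        rcases v with j | l
        · rw [ht_inl]; exact Nat.zero_le _
        · rw [ht_inr, Nat.one_le_iff_ne_zero, ← Nat.pos_iff_ne_zero,
            Set.ncard_pos (Set.toFinite _)]
          refine ⟨l, ?_, ?_⟩
          · rw [D_self]; omega
          · have := D_le (Sum.inr l) (par (Sum.inr l) : V t)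
            rw [par_inr] at this ⊢
            rw [pos_inl, ht_inl, pos_inr, ht_inr] at this
            simp only at this
            omega
      omega
    · have hA := card_ge (fun j => CovA r v j) (pos v - R) (4 * t + 3) le_rfl
        (fun j h1 h2 => covA_of (by omega) (by omega))
      have hB := card_ge (fun l => CovB r v l) (2 * t + 2 - (4 * t + 3 - pos v + R) / 2) (2 * t + 2)
        le_rfl (fun l h1 h2 => covB_of (by omega))
      have hE : {_b : Unit | CovB r v ⟨2 * t + 1, by omega⟩}.ncard = 1 :=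
        unit_ncard (covB_of (by simp only; omega))
      omega
  · by_cases hrr : pos v + R ≤ 4 * t + 3
    · have hA := card_ge (fun j => CovA r v j) 0 (pos v + R) (by omega)
        (fun j h1 h2 => covA_of (by omega) (by omega))
      have hB := card_ge (fun l => CovB r v l) 0 ((pos v + R) / 2) (by omega)
        (fun l h1 h2 => covB_of (by omega))
      have hE : {_b : Unit | CovB r v ⟨0, by omega⟩}.ncard = 1 :=
        unit_ncard (covB_of (by simp only; omega))
      omega
    · have hA := card_ge (fun j => CovA r v j) 0 (4 * t + 3) le_rfl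
        (fun j h1 h2 => covA_of (by omega) (by omega))
      have hB := card_ge (fun l => CovB r v l) 0 (2 * t + 2) le_rfl
        (fun l h1 h2 => covB_of (by omega))
      have hE : {_b : Unit | CovB r v ⟨0, by omega⟩}.ncard = 1 :=
        unit_ncard (covB_of (by simp only; omega))
      have hE' : {_b : Unit | CovB r v ⟨2 * t + 1, by omega⟩}.ncard = 1 :=
        unit_ncard (covB_of (by simp only; omega))
      omega

theorem alpha_le (t : ℕ) : alphaBn (Cat t) ≤ 4 * t + 6 := by
  classical
  refine alphaBn_le _ fun f hf => ?_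
  set S : Finset (V t) := univ.filter (fun v => 0 < f v) with hS
  have hsum : ∑ v, f v = ∑ v ∈ S, f v := by
    rw [hS, Finset.sum_filter]
    refine Finset.sum_congr rfl fun v _ => ?_
    split_ifs <;> omega
  have hA : ∑ v ∈ S, {j | CovA (f v) v j}.ncard ≤ 4 * t + 3 := by
    have := sum_card_le S (fun v j => CovA (f v) v j) (by
      intro u hu v hv huv j h1 h2
      rw [hS, Finset.mem_filter] at hu hv
      exact ne_A u j (by have := j.2; omega) (disj hf huv hu.2 hv.2 h1.1 h1.2 h2.1 h2.2))
    rwa [Fintype.card_fin] at this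
  have hB : ∑ v ∈ S, {l | CovB (f v) v l}.ncard ≤ 2 * t + 2 := by
    have := sum_card_le S (fun v l => CovB (f v) v l) (by
      intro u hu v hv huv l h1 h2
      rw [hS, Finset.mem_filter] at hu hv
      exact ne_B u l (disj hf huv hu.2 hv.2 h1.1 h1.2 h2.1 h2.2))
    rwa [Fintype.card_fin] at this
  have hE : ∀ l : Fin (2 * t + 2), ∑ v ∈ S, {_b : Unit | CovB (f v) v l}.ncard ≤ 1 := by
    intro l
    have := sum_card_le S (fun v (_ : Unit) => CovB (f v) v l) (by
      intro u hu v hv huv _ h1 h2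
      rw [hS, Finset.mem_filter] at hu hv
      exact ne_B u l (disj hf huv hu.2 hv.2 h1.1 h1.2 h2.1 h2.2))
    rwa [Fintype.card_unit] at this
  have hk : ∑ v ∈ S, 2 * f v ≤ ∑ v ∈ S, ({j | CovA (f v) v j}.ncard +
      2 * {l | CovB (f v) v l}.ncard + 3 * {_b : Unit | CovB (f v) v ⟨0, by omega⟩}.ncard +
      3 * {_b : Unit | CovB (f v) v ⟨2 * t + 1, by omega⟩}.ncard) := by
    refine Finset.sum_le_sum fun v hv => ?_
    rw [hS, Finset.mem_filter] at hv
    exact key v (f v) hv.2 ((hf.1 v).trans (ecc_le v))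
  rw [Finset.sum_add_distrib, Finset.sum_add_distrib, Finset.sum_add_distrib, ← Finset.mul_sum,
    ← Finset.mul_sum, ← Finset.mul_sum, ← Finset.mul_sum] at hk
  have e0 := hE ⟨0, by omega⟩
  have e1 := hE ⟨2 * t + 1, by omega⟩
  rw [hsum]
  omega

/-- **Theorem.** `Γ_b(T) - α_bn(T)` is unbounded above over all trees `T`. -/
theorem result : ¬ ∃ C : ℕ, ∀ (V : Type) [Fintype V] (G : SimpleGraph V), G.IsTree →
    2 ≤ Fintype.card V → GammaB G ≤ alphaBn G + C := by
  rintro ⟨C, hC⟩
  have h1 := hC (V (C + 2)) (Cat (C + 2)) (isTree _) (by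
    rw [Fintype.card_sum, Fintype.card_fin, Fintype.card_fin]; omega)
  have h2 := gamma_ge (C + 2)
  have h3 := alpha_le (C + 2)
  omega

end Pool.Agent.Results.MP_4edf50_co.UnboundedOnTrees
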